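import Pool.Agent.P.MP_bfa556_co.Last

namespace Pool.Agent.Results.MP_bfa556_co.FewSymmetries

open Pool.Agent.P.MP_bfa556_co

/-- Let `n ≥ 4`, let `(T_n, Y)` or `(T_n^*, Y)` be a tiling of `S_n`, let `Z` be `Y` or one of its
two parity halves, and let `G` be a group of maps `x ↦ a x b` or `x ↦ a x⁻¹ b` of `S_n` that
preserve `Z`. A common divisor `s` of the sizes of the orbits of `G` on `Z` is smaller than `|Z|`
by a factor that is at least `2`, at least `n / 2 + 2` from degree 37 on, and grows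
exponentially. -/
theorem result (n : ℕ) (hn : 4 ≤ n) (Y : Set (Equiv.Perm (Fin n)))
    (hY : (∀ σ : Equiv.Perm (Fin n), ∃! p : Equiv.Perm (Fin n) × Equiv.Perm (Fin n),
            (p.1 = 1 ∨ p.1.IsSwap) ∧ p.2 ∈ Y ∧ p.1 * p.2 = σ) ∨
          (∀ σ : Equiv.Perm (Fin n), ∃! p : Equiv.Perm (Fin n) × Equiv.Perm (Fin n),
            p.1.IsSwap ∧ p.2 ∈ Y ∧ p.1 * p.2 = σ))
    (Z : Set (Equiv.Perm (Fin n)))
    (hZ : Z = Y ∨ ∃ ε : ℤˣ, Z = {y | y ∈ Y ∧ Equiv.Perm.sign y = ε})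
    (G : Subgroup (Equiv.Perm (Equiv.Perm (Fin n))))
    (hG : ∀ φ ∈ G, ∃ a b : Equiv.Perm (Fin n),
      (∀ x, φ x = a * x * b) ∨ (∀ x, φ x = a * x⁻¹ * b))
    (hGZ : ∀ φ ∈ G, ∀ x ∈ Z, φ x ∈ Z)
    (s : ℕ) (hs : ∀ y ∈ Z, s ∣ {x | ∃ φ ∈ G, φ y = x}.ncard) :
    max (if n < 37 then 2 else n / 2 + 2) (4 ^ (n / 6) / n ^ (Nat.sqrt n + 9)) * s
      ≤ Z.ncard := by
  have ho : ∀ y, {x | ∃ φ ∈ G, φ y = x} = MulAction.orbit G y := fun y => Set.ext fun x =>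
    ⟨fun ⟨φ, h1, h2⟩ => ⟨⟨φ, h1⟩, h2⟩, fun ⟨φ, h⟩ => ⟨φ, φ.2, h⟩⟩
  simp only [ho] at hs
  rcases hY with hY | hY
  · exact sym_all (til_of (e := True) (by simpa only [true_and] using hY)) hn hZ hG hGZ hs
  · exact sym_all (til_of (e := False) (by simpa only [false_and, false_or] using hY)) hn hZ hG
      hGZ hs

end Pool.Agent.Results.MP_bfa556_co.FewSymmetries
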