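import Pool.Agent.P.MP_bfa556_co.Y10

namespace Pool.Agent.Results.MP_bfa556_co.ManySyndromes

open Pool.Agent.P.MP_bfa556_co

/-- For `n ≥ 26`, if `(T_n, Y)` or `(T_n^*, Y)` is a tiling of `S_n` and the even or the odd part of
`Y` is a union of classes of an additive syndrome with values in an abelian group, then the number
of classes is exponential in `n`. -/
theorem result : ∃ c : ℝ, 0 < c ∧ ∀ n : ℕ, 26 ≤ n → ∀ Y : Set (Equiv.Perm (Fin n)),
    ((∀ σ : Equiv.Perm (Fin n), ∃! p : Equiv.Perm (Fin n) × Equiv.Perm (Fin n),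
        (p.1 = 1 ∨ p.1.IsSwap) ∧ p.2 ∈ Y ∧ p.1 * p.2 = σ) ∨
      (∀ σ : Equiv.Perm (Fin n), ∃! p : Equiv.Perm (Fin n) × Equiv.Perm (Fin n),
        p.1.IsSwap ∧ p.2 ∈ Y ∧ p.1 * p.2 = σ)) →
    ∀ (A : Type) [AddCommGroup A] (φ : Fin n → Fin n → A) (V : Finset A) (ε : ℤˣ),
      (∀ g : Equiv.Perm (Fin n), Equiv.Perm.sign g = ε → (g ∈ Y ↔ ∑ i, φ i (g i) ∈ V)) →
      (2 : ℝ) ^ (c * n) < V.card := by
  obtain ⟨c, h0, -, h2⟩ := Y.small (a := 1 / 10 ^ 91 / 2 ^ 22) (by positivity)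
  refine ⟨c, h0, fun n hn Z hZ A _ φ V ε h => ?_⟩
  rcases hZ with hZ | hZ
  · have := Y.tile hn (til_of (e := True) (by simpa only [true_and] using hZ)) h
    exact h2 n _ this.1 this.2
  · have := Y.tile hn (til_of (e := False) (by simpa only [false_and, false_or] using hZ)) h
    exact h2 n _ this.1 this.2

/-- One class is never enough: the instance with a single syndrome value. -/
theorem one_class (n : ℕ) (hn : 26 ≤ n) (Y : Set (Equiv.Perm (Fin n)))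
    (hY : (∀ σ : Equiv.Perm (Fin n), ∃! p : Equiv.Perm (Fin n) × Equiv.Perm (Fin n),
            (p.1 = 1 ∨ p.1.IsSwap) ∧ p.2 ∈ Y ∧ p.1 * p.2 = σ) ∨
          (∀ σ : Equiv.Perm (Fin n), ∃! p : Equiv.Perm (Fin n) × Equiv.Perm (Fin n),
            p.1.IsSwap ∧ p.2 ∈ Y ∧ p.1 * p.2 = σ))
    (A : Type) [AddCommGroup A] (φ : Fin n → Fin n → A) (a : A) (ε : ℤˣ) :
    ¬ ∀ g : Equiv.Perm (Fin n), Equiv.Perm.sign g = ε → (g ∈ Y ↔ ∑ i, φ i (g i) = a) := by
  intro h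
  obtain ⟨c, hc, H⟩ := result
  have := H n hn Y hY A φ {a} ε fun g hg => by simpa using h g hg
  have h1 : (1 : ℝ) ≤ 2 ^ (c * n) := Real.one_le_rpow (by norm_num) (by positivity)
  simp only [Finset.card_singleton, Nat.cast_one] at this
  linarith

end Pool.Agent.Results.MP_bfa556_co.ManySyndromes
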