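import Pool.Agent.P.MP_bfa556_co.Y10

namespace Pool.Agent.Results.MP_bfa556_co.SparseSyndromes

open Pool.Agent.P.MP_bfa556_co

/-- Let `Z` be a union of classes of an additive syndrome, with values in an abelian group, among
the permutations of one sign. If no two elements of `Z` differ by a product of two transpositions
and `Z` has a share `δ` of the size `(n - 2)!` that a tiling needs, the number of classes is
exponential in `δ ^ 21 * n` up to a polynomial factor. -/
theorem result : ∃ c : ℝ, 0 < c ∧ ∀ n : ℕ, 2 ≤ n →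
    ∀ (A : Type) [AddCommGroup A] (φ : Fin n → Fin n → A) (V : Finset A) (ε : ℤˣ)
      (Z : Set (Equiv.Perm (Fin n))), Z = {g | Equiv.Perm.sign g = ε ∧ ∑ i, φ i (g i) ∈ V} →
      (∀ g ∈ Z, ∀ h ∈ Z, ∀ s t : Equiv.Perm (Fin n), s.IsSwap → t.IsSwap → s * g = t * h → g = h) →
      ∀ δ : ℝ, 0 < δ → δ ≤ 1 → δ * (n - 2).factorial ≤ Z.ncard →
      Real.exp (c * δ ^ 21 * n) ≤ V.card * n ^ 9 :=
  ⟨1 / 10 ^ 91, by positivity, fun _ hn _ _ _ _ _ _ hZ hI _ d0 d1 hc => Y.pack hn d0 d1 hZ hI hc⟩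

end Pool.Agent.Results.MP_bfa556_co.SparseSyndromes
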